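import Pool.Agent.Helper54.DI.StmtsA

/-! Module HYP of di_mods: hyperplanes are images of normalized maps. -/

namespace Pool.Agent.Helper54.DI

open Finset Filter Topology

theorem st_HYP : ST_HYP := by
  intro d f l hl
  let m0 : Fin d → KK := fun j => -(f.1 (l.succAbove j)) / f.1 l
  let v0 : KK := -f.2 / f.1 l
  let κ : NM d (d + 1) :=
    { M := l.insertNth (α := fun _ => Fin d → KK) m0 (fun j => Pi.single j 1)
      v := l.insertNth (α := fun _ => KK) v0 (fun _ => 0)
      I := l.succAbove
      hM := fun j => by rw [Fin.insertNth_apply_succAbove]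
      hv := fun j => by rw [Fin.insertNth_apply_succAbove] }
  have hl' : ((f.1 l : KK) : ℝ) ≠ 0 := by
    intro h
    apply hl
    exact_mod_cast h
  have hs : ∀ (x : Fin d → ℝ) (j : Fin d), nev κ x (l.succAbove j) = x j := by
    intro x j
    unfold nev
    have h1 : κ.M (l.succAbove j) = Pi.single j 1 := κ.hM j
    have h2 : κ.v (l.succAbove j) = 0 := κ.hv j
    rw [h1, h2, Finset.sum_eq_single j]
    · simp
    · intro b _ hb
      rw [Pi.single_apply, if_neg hb]
      simp
    · intro h
      exact absurd (Finset.mem_univ j) h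
  have hll : ∀ (x : Fin d → ℝ), nev κ x l =
      ∑ j, (-(f.1 (l.succAbove j) : ℝ) / (f.1 l : ℝ)) * x j + -(f.2 : ℝ) / (f.1 l : ℝ) := by
    intro x
    unfold nev
    have h1 : κ.M l = m0 :=
      Fin.insertNth_apply_same (α := fun _ => Fin d → KK) l m0 (fun j => Pi.single j 1)
    have h2 : κ.v l = v0 := Fin.insertNth_apply_same (α := fun _ => KK) l v0 (fun _ => 0)
    rw [h1, h2]
    simp only [m0, v0]
    push_cast
    rfl
  refine ⟨κ, rfl, ?_, ?_⟩
  · intro x
    unfold kev
    rw [Fin.sum_univ_succAbove _ l, hll]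
    simp only [hs]
    have : ∑ j, (-(f.1 (l.succAbove j) : ℝ) / (f.1 l : ℝ)) * x j =
        -(∑ j, (f.1 (l.succAbove j) : ℝ) * x j) / (f.1 l : ℝ) := by
      rw [neg_div, Finset.sum_div, ← Finset.sum_neg_distrib]
      refine Finset.sum_congr rfl fun j _ => ?_
      ring
    rw [this]
    field_simp
    ring
  · intro p hp
    unfold kev at hp
    rw [Fin.sum_univ_succAbove _ l] at hp
    funext i
    rcases Fin.eq_self_or_eq_succAbove l i with h | ⟨j, h⟩
    · subst h
      rw [hll]
      have : ∑ j, (-(f.1 (i.succAbove j) : ℝ) / (f.1 i : ℝ)) * p (i.succAbove j) =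
          -(∑ j, (f.1 (i.succAbove j) : ℝ) * p (i.succAbove j)) / (f.1 i : ℝ) := by
        rw [neg_div, Finset.sum_div, ← Finset.sum_neg_distrib]
        refine Finset.sum_congr rfl fun j _ => ?_
        ring
      rw [this]
      field_simp
      linarith
    · subst h
      rw [hs]

end Pool.Agent.Helper54.DI
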