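import Pool.Agent.Helper54.DI.StmtsA

/-! Module SEG of di_mods: membership is constant along segments that avoid the frontier. -/

namespace Pool.Agent.Helper54.DI

open Finset Filter Topology

theorem seg_aux {X : Type*} [TopologicalSpace X] (A S : Set X) (hS : IsPreconnected S)
    (h : ∀ t ∈ S, t ∉ frontier A) {x y : X} (hx : x ∈ S) (hy : y ∈ S) (hxA : x ∈ A) : y ∈ A := by
  by_contra hyA
  have hcov : S ⊆ interior A ∪ interior Aᶜ := by
    intro t ht
    have h1 := h t ht
    rw [frontier_eq_closure_inter_closure] at h1
    by_cases h2 : t ∈ closure A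
    · have h3 : t ∉ closure Aᶜ := fun h3 => h1 ⟨h2, h3⟩
      left
      rw [closure_compl] at h3
      simpa using h3
    · right
      rw [interior_compl]
      exact h2
  have hxi : x ∈ interior A := by
    rcases hcov hx with h1 | h1
    · exact h1
    · exact absurd hxA (interior_subset h1)
  have hyi : y ∈ interior Aᶜ := by
    rcases hcov hy with h1 | h1
    · exact absurd (interior_subset h1) hyA
    · exact h1
  obtain ⟨z, _, hz1, hz2⟩ := hS (interior A) (interior Aᶜ) isOpen_interior isOpen_interior hcov
    ⟨x, hx, hxi⟩ ⟨y, hy, hyi⟩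
  exact (interior_subset hz2) (interior_subset hz1)

theorem st_SEG : ST_SEG := by
  intro d A x y h
  have hS : IsPreconnected (segment ℝ x y) := (convex_segment x y).isPreconnected
  exact ⟨seg_aux A _ hS h (left_mem_segment ℝ x y) (right_mem_segment ℝ x y),
    seg_aux A _ hS h (right_mem_segment ℝ x y) (left_mem_segment ℝ x y)⟩

end Pool.Agent.Helper54.DI
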